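import Pool.Agent.H3.AM.Targets2

/-!
# Alperin–McKay reduction: Clifford theory (modules EA, EB, EC)
-/

open scoped Classical ComplexConjugate

set_option linter.unusedSectionVars false

namespace AMc

namespace HE

section Clifford

variable {Γ : Type} [Group Γ] [Fintype Γ]

/-- unnormalised inner product -/
noncomputable def ip (f g : Γ → ℂ) : ℂ := ∑ x : Γ, f x * conj (g x)

theorem ip_conj (f g : Γ → ℂ) : conj (ip f g) = ip g f := by
  unfold ip
  rw [map_sum]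
  refine Finset.sum_congr rfl fun x _ => ?_
  rw [map_mul, Complex.conj_conj, mul_comm]

theorem over_iff {χ θ : Γ → ℂ} : Over χ θ ↔ ip χ θ ≠ 0 := Iff.rfl

theorem sum_conj_eq (u : Γ) (f : Γ → ℂ) : ∑ x : Γ, f (u * x * u⁻¹) = ∑ x : Γ, f x := by
  refine Fintype.sum_equiv (MulAut.conj u).toEquiv _ _ fun x => ?_
  simp [MulAut.conj_apply]

theorem cj_mul (u v : Γ) (θ : Γ → ℂ) : cj (u * v) θ = cj v (cj u θ) := by
  funext g
  simp only [cj]
  congr 1
  group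

theorem cj_one (θ : Γ → ℂ) : cj 1 θ = θ := by
  funext g
  simp [cj]

theorem cj_apply_one (u : Γ) (θ : Γ → ℂ) : cj u θ 1 = θ 1 := by
  simp [cj]

theorem ip_cj_cj (u : Γ) (f g : Γ → ℂ) : ip (cj u f) (cj u g) = ip f g := by
  unfold ip cj
  exact sum_conj_eq u (fun x => f x * conj (g x))

/-- invariance for elements of `U` -/
theorem cj_eq_self (h1 : T_S1) {U : Subgroup Γ} {χ : Γ → ℂ} (hχ : χ ∈ IrrS U) {u : Γ}
    (hu : u ∈ U) : cj u χ = χ := by
  funext g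
  exact (h1 Γ U χ hχ).2.1 u hu g

theorem ip_cj_right (h1 : T_S1) {U : Subgroup Γ} {χ : Γ → ℂ} (hχ : χ ∈ IrrS U) {u : Γ}
    (hu : u ∈ U) (θ : Γ → ℂ) : ip χ (cj u θ) = ip χ θ := by
  conv_lhs => rw [← cj_eq_self h1 hχ hu]
  exact ip_cj_cj u χ θ

theorem cj_mem (h7 : T_S7) {N U : Subgroup Γ} (hN : ∀ u ∈ U, ∀ g ∈ N, u * g * u⁻¹ ∈ N)
    {θ : Γ → ℂ} (hθ : θ ∈ IrrS N) {u : Γ} (hu : u ∈ U) : cj u θ ∈ IrrS N := by
  refine h7 Γ N N u (fun g => ⟨fun hg => hN u hu g hg, fun hg => ?_⟩) θ hθ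
  have := hN u⁻¹ (U.inv_mem hu) _ hg
  have h2 : u⁻¹ * (u * g * u⁻¹) * u⁻¹⁻¹ = g := by group
  rwa [h2] at this

/-- restriction to a subgroup, extended by zero -/
noncomputable def rs (N : Subgroup Γ) (f : Γ → ℂ) : Γ → ℂ := fun g => if g ∈ N then f g else 0

theorem ip_rs {N : Subgroup Γ} {θ : Γ → ℂ} (hθ : ∀ g, g ∉ N → θ g = 0) (f : Γ → ℂ) :
    ip (rs N f) θ = ip f θ := by
  unfold ip rs
  refine Finset.sum_congr rfl fun x _ => ?_
  by_cases hx : x ∈ N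
  · rw [if_pos hx]
  · rw [if_neg hx, hθ x hx, map_zero, mul_zero, mul_zero]

theorem conj_mem_iff {N : Subgroup Γ} {n g : Γ} (hn : n ∈ N) : n * g * n⁻¹ ∈ N ↔ g ∈ N := by
  constructor
  · intro h
    have := N.mul_mem (N.mul_mem (N.inv_mem hn) h) hn
    have h2 : n⁻¹ * (n * g * n⁻¹) * n = g := by group
    rwa [h2] at this
  · intro h
    exact N.mul_mem (N.mul_mem hn h) (N.inv_mem hn)

theorem rs_inv {N : Subgroup Γ} {f : Γ → ℂ} (hf : ∀ n ∈ N, ∀ g, f (n * g * n⁻¹) = f g) :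
    ∀ n ∈ N, ∀ g, rs N f (n * g * n⁻¹) = rs N f g := by
  intro n hn g
  unfold rs
  by_cases hg : g ∈ N
  · rw [if_pos hg, if_pos ((conj_mem_iff hn).mpr hg), hf n hn]
  · rw [if_neg hg, if_neg (fun h => hg ((conj_mem_iff hn).mp h))]

/-- **E1.** -/
theorem e1 (h1 : T_S1) (h3 : T_S3) : T_E1 := by
  intro Γ _ _ N U hNU χ hχ
  by_contra hcon
  push Not at hcon
  obtain ⟨_, hinv, ⟨d, hd, hχ1⟩, _⟩ := h1 Γ U χ hχ
  have h0 : rs N χ = 0 := by
    apply h3 Γ N (rs N χ)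
    · intro g hg
      exact if_neg hg
    · exact rs_inv fun n hn g => hinv n (hNU hn) g
    · intro θ hθ
      have h4 := hcon θ hθ
      rw [over_iff, not_not] at h4
      have h5 := ip_rs (h1 Γ N θ hθ).1 χ
      rw [h4] at h5
      exact h5
  have h6 := congrFun h0 1
  simp only [rs, if_pos N.one_mem, Pi.zero_apply] at h6
  rw [hχ1] at h6
  exact (Nat.pos_iff_ne_zero.mp hd) (by exact_mod_cast h6)

/-- the (unnormalised) induced function -/
noncomputable def ind (U : Subgroup Γ) (θ : Γ → ℂ) : Γ → ℂ :=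
  fun x => ∑ u : U, θ ((u : Γ) * x * (u : Γ)⁻¹)

theorem ind_eq (U : Subgroup Γ) (θ : Γ → ℂ) (x : Γ) : ind U θ x = ∑ u : U, cj (u : Γ) θ x := rfl

theorem ind_conj (U : Subgroup Γ) (θ : Γ → ℂ) {v : Γ} (hv : v ∈ U) (x : Γ) :
    ind U θ (v * x * v⁻¹) = ind U θ x := by
  unfold ind
  refine Fintype.sum_equiv (Equiv.mulRight (⟨v, hv⟩ : U)) _ _ fun u => ?_
  simp only [Equiv.coe_mulRight, Subgroup.coe_mul]
  congr 1
  group

theorem ind_supp {N U : Subgroup Γ} (hN : ∀ u ∈ U, ∀ g ∈ N, u * g * u⁻¹ ∈ N) {θ : Γ → ℂ}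
    (hθ : ∀ g, g ∉ N → θ g = 0) {x : Γ} (hx : x ∉ N) : ind U θ x = 0 := by
  unfold ind
  refine Finset.sum_eq_zero fun u _ => hθ _ fun h => hx ?_
  have := hN (u : Γ)⁻¹ (U.inv_mem u.2) _ h
  have h2 : (u : Γ)⁻¹ * (u * x * (u : Γ)⁻¹) * (u : Γ)⁻¹⁻¹ = x := by group
  rwa [h2] at this

/-- Frobenius reciprocity -/
theorem ip_ind (h1 : T_S1) {U : Subgroup Γ} {χ : Γ → ℂ} (hχ : χ ∈ IrrS U) (θ : Γ → ℂ) :
    ip χ (ind U θ) = (Nat.card U : ℂ) * ip χ θ := by
  have h2 : ip χ (ind U θ) = ∑ u : U, ip χ (cj (u : Γ) θ) := by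
    unfold ip
    rw [Finset.sum_comm]
    refine Finset.sum_congr rfl fun x _ => ?_
    rw [ind_eq, map_sum, Finset.mul_sum]
  rw [h2, Finset.sum_congr rfl (fun u _ => ip_cj_right h1 hχ u.2 θ), Finset.sum_const,
    nsmul_eq_mul, Finset.card_univ, Nat.card_eq_fintype_card]

theorem ind_one (U : Subgroup Γ) (θ : Γ → ℂ) : ind U θ 1 = (Nat.card U : ℂ) * θ 1 := by
  unfold ind
  have : ∀ u : U, θ ((u : Γ) * 1 * (u : Γ)⁻¹) = θ 1 := by intro u; congr 1; group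
  rw [Finset.sum_congr rfl (fun u _ => this u), Finset.sum_const, nsmul_eq_mul, Finset.card_univ,
    Nat.card_eq_fintype_card]

theorem natCard_ne_zero (U : Subgroup Γ) : (Nat.card U : ℂ) ≠ 0 := by
  exact_mod_cast (Nat.card_pos (α := U)).ne'

/-- **E4.** -/
theorem e4 (h1 : T_S1) (h3 : T_S3) : T_E4 := by
  intro Γ _ _ N U hNU θ hθ
  by_contra hcon
  push Not at hcon
  obtain ⟨hsupp, hinv, ⟨d, hd, hθ1⟩, _⟩ := h1 Γ N θ hθ
  have h0 : ind U θ = 0 := by
    apply h3 Γ U (ind U θ)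
    · intro g hg
      unfold ind
      refine Finset.sum_eq_zero fun u _ => hsupp _ fun h => hg ?_
      exact (conj_mem_iff u.2).mp (hNU h)
    · intro n hn g
      exact ind_conj U θ hn g
    · intro χ hχ
      have h4 := hcon χ hχ
      rw [over_iff, not_not] at h4
      have h5 : ip (ind U θ) χ = 0 := by
        rw [← ip_conj, ip_ind h1 hχ, h4, mul_zero, map_zero]
      exact h5
  have h6 := congrFun h0 1
  rw [ind_one, hθ1, Pi.zero_apply] at h6
  rcases mul_eq_zero.mp h6 with h7 | h7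
  · exact natCard_ne_zero U h7
  · exact (Nat.pos_iff_ne_zero.mp hd) (by exact_mod_cast h7)

/-- the element of the group algebra with coefficients `conj (f g)` -/
noncomputable def elt (f : Γ → ℂ) : MonoidAlgebra ℂ Γ :=
  MonoidAlgebra.ofCoeff (Finsupp.equivFunOnFinite.symm fun g => conj (f g))

theorem elt_coeff (f : Γ → ℂ) (g : Γ) : (elt f).coeff g = conj (f g) := by
  simp [elt]

theorem elt_mem {N U : Subgroup Γ} {f : Γ → ℂ} (hf : ∀ g, g ∉ N → f g = 0)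
    (hf' : ∀ u ∈ U, ∀ g, f (u * g * u⁻¹) = f g) : elt f ∈ ZA ℂ N U := by
  refine ⟨fun g hg => ?_, fun u hu g => ?_⟩
  · rw [elt_coeff, hf g hg, map_zero]
  · rw [elt_coeff, elt_coeff, hf' u hu]

theorem sum_elt (f χ : Γ → ℂ) : ∑ g, (elt f).coeff g * χ g = ip χ f := by
  unfold ip
  refine Finset.sum_congr rfl fun g _ => ?_
  rw [elt_coeff, mul_comm]

/-- an element of the centre killed by all characters is zero -/
theorem ZA_eq_zero (h1 : T_S1) (h3 : T_S3) {N : Subgroup Γ} {z : MonoidAlgebra ℂ Γ}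
    (hz : z ∈ ZA ℂ N N) (h : ∀ φ ∈ IrrS N, ∑ g, z.coeff g * φ g = 0) : z = 0 := by
  have h0 : (fun g => z.coeff g⁻¹) = (0 : Γ → ℂ) := by
    apply h3 Γ N
    · intro g hg
      exact hz.1 g⁻¹ (fun h => hg (N.inv_mem_iff.mp h))
    · intro n hn g
      show z.coeff (n * g * n⁻¹)⁻¹ = z.coeff g⁻¹
      rw [← hz.2 n hn g⁻¹]
      congr 1
      group
    · intro φ hφ
      rw [← h φ hφ]
      refine Fintype.sum_equiv (Equiv.inv Γ) _ _ fun g => ?_
      show z.coeff g⁻¹ * conj (φ g) = z.coeff g⁻¹ * φ g⁻¹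
      rw [(h1 Γ N φ hφ).2.2.2.1]
  apply MonoidAlgebra.coeff_eq_zero.1
  ext g
  have := congrFun h0 g⁻¹
  simpa using this

/-- **E2.** -/
theorem e2 (h1 : T_S1) (h2 : T_S2) (h3 : T_S3) (h6 : T_S6) (h7 : T_S7) : T_E2 := by
  intro Γ _ _ N U hNU hN χ hχ θ hθ θ' hθ' hO hO'
  by_contra hcon
  push Not at hcon
  have hs := (h1 Γ N θ hθ).1
  have hs' := (h1 Γ N θ' hθ').1
  have hz : elt (ind U θ) ∈ ZA ℂ N U :=
    elt_mem (fun g hg => ind_supp hN hs hg) (fun u hu g => ind_conj U θ hu g)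
  have hz' : elt (ind U θ') ∈ ZA ℂ N U :=
    elt_mem (fun g hg => ind_supp hN hs' hg) (fun u hu g => ind_conj U θ' hu g)
  have hzN : elt (ind U θ) ∈ ZA ℂ N N := ⟨hz.1, fun u hu => hz.2 u (hNU hu)⟩
  have hzN' : elt (ind U θ') ∈ ZA ℂ N N := ⟨hz'.1, fun u hu => hz'.2 u (hNU hu)⟩
  have hzU : elt (ind U θ) ∈ ZA ℂ U U := ⟨fun g hg => hz.1 g (fun h => hg (hNU h)), hz.2⟩
  have hzU' : elt (ind U θ') ∈ ZA ℂ U U := ⟨fun g hg => hz'.1 g (fun h => hg (hNU h)), hz'.2⟩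
  -- the product vanishes
  have hip : ∀ (η : Γ → ℂ), η ∈ IrrS N → ∀ φ ∈ IrrS N, ip φ (ind U η) ≠ 0 →
      ∃ u ∈ U, φ = cj u η := by
    intro η hη φ hφ hne
    have h4 : ip φ (ind U η) = ∑ u : U, ip φ (cj (u : Γ) η) := by
      unfold ip
      rw [Finset.sum_comm]
      refine Finset.sum_congr rfl fun x _ => ?_
      rw [ind_eq, map_sum, Finset.mul_sum]
    rw [h4] at hne
    obtain ⟨u, _, hu⟩ := Finset.exists_ne_zero_of_sum_ne_zero hne
    refine ⟨u, u.2, ?_⟩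
    by_contra hne'
    apply hu
    have := h2 Γ N φ (cj (u : Γ) η) hφ (cj_mem h7 hN hη u.2)
    rw [if_neg hne'] at this
    exact this
  have hprod : elt (ind U θ) * elt (ind U θ') = 0 := by
    apply ZA_eq_zero h1 h3 ((ZA ℂ N N).mul_mem hzN hzN')
    intro φ hφ
    have h4 := h6 Γ N φ hφ _ hzN _ hzN'
    rw [sum_elt, sum_elt] at h4
    have h5 : ip φ (ind U θ) * ip φ (ind U θ') = 0 := by
      by_contra hne
      obtain ⟨hne1, hne2⟩ := mul_ne_zero_iff.mp hne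
      obtain ⟨u, hu, hu'⟩ := hip θ hθ φ hφ hne1
      obtain ⟨v, hv, hv'⟩ := hip θ' hθ' φ hφ hne2
      apply hcon (u * v⁻¹) (U.mul_mem hu (U.inv_mem hv))
      rw [cj_mul, ← hu', hv', ← cj_mul, mul_inv_cancel, cj_one]
    rw [h5] at h4
    obtain ⟨d, hd, hφ1⟩ := (h1 Γ N φ hφ).2.2.1
    rcases mul_eq_zero.mp h4 with h8 | h8
    · exact h8
    · rw [hφ1] at h8
      exact absurd (by exact_mod_cast h8) (Nat.pos_iff_ne_zero.mp hd)
  have h4 := h6 Γ U χ hχ _ hzU _ hzU'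
  rw [hprod, sum_elt, sum_elt, ip_ind h1 hχ, ip_ind h1 hχ] at h4
  simp only [MonoidAlgebra.coeff_zero, Finsupp.coe_zero, Pi.zero_apply, zero_mul,
    Finset.sum_const_zero] at h4
  have h5 : (Nat.card U : ℂ) * ip χ θ * ((Nat.card U : ℂ) * ip χ θ') ≠ 0 :=
    mul_ne_zero (mul_ne_zero (natCard_ne_zero U) hO) (mul_ne_zero (natCard_ne_zero U) hO')
  exact h5 h4.symm

/-- the fibres of `u ↦ cj u θ` have the size of the stabiliser -/
theorem card_fibre (U : Subgroup Γ) (θ : Γ → ℂ) {v : Γ} (hv : v ∈ U) :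
    (Finset.univ.filter (fun u : U => cj (u : Γ) θ = cj v θ)).card = Nat.card (stab U θ) := by
  rw [Nat.card_eq_fintype_card, ← Fintype.card_subtype]
  refine Fintype.card_congr
    { toFun := fun u => ⟨(u.1 : Γ) * v⁻¹, U.mul_mem u.1.2 (U.inv_mem hv), ?_⟩
      invFun := fun w => ⟨⟨(w : Γ) * v, U.mul_mem w.2.1 hv⟩, ?_⟩
      left_inv := fun u => ?_
      right_inv := fun w => ?_ }
  · rw [cj_mul, u.2, ← cj_mul, mul_inv_cancel, cj_one]
  · show cj ((w : Γ) * v) θ = cj v θ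
    rw [cj_mul, w.2.2]
  · apply Subtype.ext
    apply Subtype.ext
    simp
  · apply Subtype.ext
    simp

theorem stab_le (U : Subgroup Γ) (θ : Γ → ℂ) : stab U θ ≤ U := fun _ hu => hu.1

/-- Clifford's formula with the norm of the restriction -/
theorem clifford (h1 : T_S1) (h2 : T_S2) (h3 : T_S3) (h4 : T_S4) (h7 : T_S7) (hE : T_E2)
    {N U : Subgroup Γ} (hNU : N ≤ U) (hN : ∀ u ∈ U, ∀ g ∈ N, u * g * u⁻¹ ∈ N)
    {χ : Γ → ℂ} (hχ : χ ∈ IrrS U) {θ : Γ → ℂ} (hθ : θ ∈ IrrS N) (hO : Over χ θ) :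
    ∃ a t : ℕ, 0 < a ∧ 0 < t ∧ t * Nat.card (stab U θ) = Nat.card U ∧
      (∀ x ∈ N, (Nat.card U : ℂ) * χ x = a * t * ind U θ x) ∧
      χ 1 = a * t * θ 1 ∧
      ip (rs N χ) (rs N χ) = a * a * t * (Nat.card N : ℂ) := by
  obtain ⟨a, ha⟩ := h4 Γ N U hNU χ hχ θ hθ
  change ip χ θ = a * (Nat.card N : ℂ) at ha
  have ha0 : 0 < a := by
    rw [Nat.pos_iff_ne_zero]
    rintro rfl
    apply hO
    change ip χ θ = 0
    rw [ha]; simp
  obtain ⟨t, ht⟩ := Subgroup.card_dvd_of_le (stab_le U θ)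
  have ht' : t * Nat.card (stab U θ) = Nat.card U := by rw [ht, mul_comm]
  have ht0 : 0 < t := by
    rw [Nat.pos_iff_ne_zero]
    rintro rfl
    rw [zero_mul] at ht'
    exact (Nat.card_pos (α := U)).ne ht'
  have hsupp := (h1 Γ N θ hθ).1
  have hχinv := (h1 Γ U χ hχ).2.1
  -- inner products with characters of `N`
  have hip : ∀ φ ∈ IrrS N, (Nat.card U : ℂ) * ip χ φ = a * t * ip (ind U θ) φ := by
    intro φ hφ
    have h5 : ip (ind U θ) φ = ∑ u : U, ip (cj (u : Γ) θ) φ := by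
      unfold ip
      rw [Finset.sum_comm]
      refine Finset.sum_congr rfl fun x _ => ?_
      rw [ind_eq, Finset.sum_mul]
    by_cases hex : ∃ v ∈ U, φ = cj v θ
    · obtain ⟨v, hv, rfl⟩ := hex
      rw [ip_cj_right h1 hχ hv, ha, h5]
      have h6 : ∀ u : U, ip (cj (u : Γ) θ) (cj v θ) =
          if cj (u : Γ) θ = cj v θ then (Nat.card N : ℂ) else 0 := fun u =>
        h2 Γ N _ _ (cj_mem h7 hN hθ u.2) (cj_mem h7 hN hθ hv)
      rw [Finset.sum_congr rfl (fun u _ => h6 u), ← Finset.sum_filter, Finset.sum_const,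
        nsmul_eq_mul, card_fibre U θ hv]
      have h8 : (Nat.card U : ℂ) = t * Nat.card (stab U θ) := by exact_mod_cast ht'.symm
      rw [h8]; ring
    · push Not at hex
      have h6 : ip χ φ = 0 := by
        by_contra hne
        obtain ⟨u, hu, hu'⟩ := hE Γ N U hNU hN χ hχ θ hθ φ hφ hO hne
        exact hex u hu hu'
      rw [h6, mul_zero, h5]
      have h8 : ∀ u : U, ip (cj (u : Γ) θ) φ = 0 := by
        intro u
        have := h2 Γ N _ _ (cj_mem h7 hN hθ u.2) hφ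
        rwa [if_neg (fun h => hex u u.2 h.symm)] at this
      rw [Finset.sum_congr rfl (fun u _ => h8 u), Finset.sum_const_zero, mul_zero]
  -- Clifford's formula
  have hform : ∀ x ∈ N, (Nat.card U : ℂ) * χ x = a * t * ind U θ x := by
    have h0 : (fun x => (Nat.card U : ℂ) * rs N χ x - a * t * ind U θ x) = (0 : Γ → ℂ) := by
      apply h3 Γ N
      · intro g hg
        have h5 : rs N χ g = 0 := if_neg hg
        show (Nat.card U : ℂ) * rs N χ g - a * t * ind U θ g = 0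
        rw [h5, ind_supp hN hsupp hg]; simp
      · intro n hn g
        have h5 := rs_inv (N := N) (f := χ) (fun n hn g => hχinv n (hNU hn) g) n hn g
        show (Nat.card U : ℂ) * rs N χ (n * g * n⁻¹) - a * t * ind U θ (n * g * n⁻¹) =
          (Nat.card U : ℂ) * rs N χ g - a * t * ind U θ g
        rw [h5, ind_conj U θ (hNU hn)]
      · intro φ hφ
        have h5 := hip φ hφ
        have h6 := ip_rs (h1 Γ N φ hφ).1 χ
        have h8 : ∑ g, ((Nat.card U : ℂ) * rs N χ g - a * t * ind U θ g) * conj (φ g) =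
            (Nat.card U : ℂ) * ip (rs N χ) φ - a * t * ip (ind U θ) φ := by
          unfold ip
          rw [Finset.mul_sum, Finset.mul_sum, ← Finset.sum_sub_distrib]
          refine Finset.sum_congr rfl fun g _ => by ring
        show ∑ g, ((Nat.card U : ℂ) * rs N χ g - a * t * ind U θ g) * conj (φ g) = 0
        rw [h8, h6, h5, sub_self]
    intro x hx
    have h5 := congrFun h0 x
    have h6 : rs N χ x = χ x := if_pos hx
    change (Nat.card U : ℂ) * rs N χ x - a * t * ind U θ x = 0 at h5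
    rw [h6] at h5
    exact sub_eq_zero.mp h5
  refine ⟨a, t, ha0, ht0, ht', hform, ?_, ?_⟩
  · have h5 := hform 1 N.one_mem
    rw [ind_one] at h5
    have h6 : (Nat.card U : ℂ) * χ 1 = (Nat.card U : ℂ) * (a * t * θ 1) := by rw [h5]; ring
    exact mul_left_cancel₀ (natCard_ne_zero U) h6
  · have hsr : ∀ g, g ∉ N → rs N χ g = 0 := fun g hg => if_neg hg
    have h5 : (Nat.card U : ℂ) * ip (rs N χ) (rs N χ) =
        (Nat.card U : ℂ) * (a * a * t * (Nat.card N : ℂ)) := by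
      have h6 : (Nat.card U : ℂ) * ip (rs N χ) (rs N χ) =
          a * t * ip (ind U θ) (rs N χ) := by
        unfold ip
        rw [Finset.mul_sum, Finset.mul_sum]
        refine Finset.sum_congr rfl fun g _ => ?_
        by_cases hg : g ∈ N
        · have h8 : rs N χ g = χ g := if_pos hg
          rw [← mul_assoc, h8, hform g hg]; ring
        · rw [hsr g hg]; simp
      have h8 : ip (ind U θ) (rs N χ) = (Nat.card U : ℂ) * (a * (Nat.card N : ℂ)) := by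
        have h9 : ip (ind U θ) (rs N χ) = conj (ip (rs N χ) (ind U θ)) := (ip_conj _ _).symm
        rw [h9, ip_rs (fun g hg => ind_supp hN hsupp hg), ip_ind h1 hχ, ha]
        simp
      rw [h6, h8]; ring
    exact mul_left_cancel₀ (natCard_ne_zero U) h5

/-- **E6.** -/
theorem e6 (h1 : T_S1) (h2 : T_S2) (h3 : T_S3) (h4 : T_S4) (h7 : T_S7) (hE : T_E2) : T_E6 := by
  intro Γ _ _ N U hNU hN χ hχ θ hθ hO f hf hf'
  obtain ⟨a, t, ha, ht, -, hform, hdeg, -⟩ := clifford h1 h2 h3 h4 h7 hE hNU hN hχ hθ hO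
  have ha' : (a : ℂ) ≠ 0 := by exact_mod_cast ha.ne'
  have ht' : (t : ℂ) ≠ 0 := by exact_mod_cast ht.ne'
  have hU := natCard_ne_zero U
  obtain ⟨d, hd, hθ1⟩ := (h1 Γ N θ hθ).2.2.1
  have hd' : θ 1 ≠ 0 := by rw [hθ1]; exact_mod_cast hd.ne'
  have h5 : (Nat.card U : ℂ) * ∑ g, f g * χ g = (Nat.card U : ℂ) * (a * t * ∑ g, f g * θ g) := by
    have h6 : (Nat.card U : ℂ) * ∑ g, f g * χ g = a * t * ∑ g, f g * ind U θ g := by
      rw [Finset.mul_sum, Finset.mul_sum]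
      refine Finset.sum_congr rfl fun g _ => ?_
      by_cases hg : g ∈ N
      · calc (Nat.card U : ℂ) * (f g * χ g) = f g * ((Nat.card U : ℂ) * χ g) := by ring
          _ = f g * (a * t * ind U θ g) := by rw [hform g hg]
          _ = a * t * (f g * ind U θ g) := by ring
      · rw [hf g hg]; ring
    have h8 : ∑ g, f g * ind U θ g = (Nat.card U : ℂ) * ∑ g, f g * θ g := by
      have h9 : ∑ g, f g * ind U θ g = ∑ u : U, ∑ g, f g * θ ((u : Γ) * g * (u : Γ)⁻¹) := by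
        rw [Finset.sum_comm]
        refine Finset.sum_congr rfl fun g _ => ?_
        unfold ind
        rw [Finset.mul_sum]
      have h10 : ∀ u : U, ∑ g, f g * θ ((u : Γ) * g * (u : Γ)⁻¹) = ∑ g, f g * θ g := by
        intro u
        rw [← sum_conj_eq (u : Γ) (fun g => f g * θ g)]
        refine Finset.sum_congr rfl fun g _ => ?_
        rw [hf' u u.2]
      rw [h9, Finset.sum_congr rfl (fun u _ => h10 u), Finset.sum_const, nsmul_eq_mul,
        Finset.card_univ, Nat.card_eq_fintype_card]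
    rw [h6, h8]; ring
  rw [mul_left_cancel₀ hU h5, hdeg]
  field_simp

theorem card_mul_relIndex {N U : Subgroup Γ} (hNU : N ≤ U) :
    Nat.card N * N.relIndex U = Nat.card U := by
  have h := Subgroup.relIndex_mul_relIndex ⊥ N U bot_le hNU
  rwa [Subgroup.relIndex_bot_left, Subgroup.relIndex_bot_left] at h

/-- `ip f f` is the sum of the squares of the absolute values -/
theorem ip_self (f : Γ → ℂ) : ip f f = ((∑ x, ‖f x‖ ^ 2 : ℝ) : ℂ) := by
  unfold ip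
  push_cast
  refine Finset.sum_congr rfl fun x _ => ?_
  rw [Complex.mul_conj]
  norm_cast
  exact Complex.normSq_eq_norm_sq (f x)

theorem norm_data (h1 : T_S1) (h2 : T_S2) {N U : Subgroup Γ} {χ : Γ → ℂ} (hχ : χ ∈ IrrS U) :
    (∑ x, ‖rs N χ x‖ ^ 2 : ℝ) ≤ (Nat.card U : ℝ) ∧
    ((∑ x, ‖rs N χ x‖ ^ 2 : ℝ) = (Nat.card U : ℝ) → ∀ x, x ∉ N → χ x = 0) := by
  have h3 := h2 Γ U χ χ hχ hχ
  rw [if_pos rfl] at h3
  change ip χ χ = _ at h3
  rw [ip_self] at h3
  have h4 : (∑ x, ‖χ x‖ ^ 2 : ℝ) = (Nat.card U : ℝ) := by exact_mod_cast h3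
  have h5 : ∀ x, ‖rs N χ x‖ ^ 2 ≤ ‖χ x‖ ^ 2 := by
    intro x
    by_cases hx : x ∈ N
    · have : rs N χ x = χ x := if_pos hx
      rw [this]
    · have : rs N χ x = 0 := if_neg hx
      rw [this, norm_zero]
      simp
  refine ⟨by rw [← h4]; exact Finset.sum_le_sum fun x _ => h5 x, fun h6 x hx => ?_⟩
  rw [← h4] at h6
  have h7 := (Finset.sum_eq_sum_iff_of_le (fun x _ => h5 x)).mp h6 x (Finset.mem_univ x)
  have : rs N χ x = 0 := if_neg hx
  rw [this, norm_zero] at h7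
  have h8 : ‖χ x‖ = 0 := by
    have : ‖χ x‖ ^ 2 = 0 := by rw [← h7]; norm_num
    exact pow_eq_zero_iff (by norm_num) |>.mp this
  exact norm_eq_zero.mp h8

/-- **E3.** -/
theorem e3 (h1 : T_S1) (h2 : T_S2) (h3 : T_S3) (h4 : T_S4) (h7 : T_S7) (hE : T_E2) : T_E3 := by
  intro Γ _ _ N U hNU hN χ hχ θ hθ hO
  obtain ⟨a, t, ha, ht, hcard, hform, hdeg, hnorm⟩ :=
    clifford h1 h2 h3 h4 h7 hE hNU hN hχ hθ hO
  refine ⟨a, t, ha, ht, hcard, hdeg, ?_, hform⟩
  rw [ip_self] at hnorm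
  have h5 : (∑ x, ‖rs N χ x‖ ^ 2 : ℝ) = a * a * t * (Nat.card N : ℝ) := by exact_mod_cast hnorm
  have h6 := (norm_data h1 h2 (N := N) hχ).1
  rw [h5] at h6
  have h8 : a * a * t * Nat.card N ≤ Nat.card U := by exact_mod_cast h6
  rw [← card_mul_relIndex hNU, mul_comm (Nat.card N)] at h8
  exact Nat.le_of_mul_le_mul_right h8 Nat.card_pos

/-- **E5.** -/
theorem e5 (hE : T_E2) (hE3 : T_E3) : T_E5 := by
  intro Γ _ _ N U hNU hN χ hχ
  by_cases hex : ∃ θ ∈ IrrS N, Over χ θ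
  · obtain ⟨θ, hθ, hO⟩ := hex
    let im : Finset (Γ → ℂ) := Finset.univ.image (fun u : U => cj (u : Γ) θ)
    have hsub : {θ | θ ∈ IrrS N ∧ Over χ θ} ⊆ (im : Set (Γ → ℂ)) := by
      rintro θ' ⟨hθ', hO'⟩
      obtain ⟨u, hu, rfl⟩ := hE Γ N U hNU hN χ hχ θ hθ θ' hθ' hO hO'
      simp only [im, Finset.coe_image, Finset.coe_univ, Set.image_univ]
      exact ⟨⟨u, hu⟩, rfl⟩
    refine ⟨im.finite_toSet.subset hsub, ?_⟩
    obtain ⟨a, t, ha, ht, hcard, -, hle, -⟩ := hE3 Γ N U hNU hN χ hχ θ hθ hO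
    have h5 : im.card * Nat.card (stab U θ) = Nat.card U := by
      have h6 : (Finset.univ : Finset U).card =
          ∑ φ ∈ im, (Finset.univ.filter (fun u : U => cj (u : Γ) θ = φ)).card :=
        Finset.card_eq_sum_card_fiberwise (fun u _ => Finset.mem_image_of_mem _ (Finset.mem_univ u))
      have h8 : ∀ φ ∈ im, (Finset.univ.filter (fun u : U => cj (u : Γ) θ = φ)).card =
          Nat.card (stab U θ) := by
        intro φ hφ
        obtain ⟨v, _, rfl⟩ := Finset.mem_image.mp hφ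
        exact card_fibre U θ v.2
      rw [Finset.sum_congr rfl h8, Finset.sum_const, smul_eq_mul] at h6
      rw [← h6, Finset.card_univ, Nat.card_eq_fintype_card]
    have h6 : im.card = t :=
      Nat.eq_of_mul_eq_mul_right Nat.card_pos (h5.trans hcard.symm)
    calc {θ | θ ∈ IrrS N ∧ Over χ θ}.ncard ≤ (im : Set (Γ → ℂ)).ncard :=
          Set.ncard_le_ncard hsub im.finite_toSet
      _ = im.card := Set.ncard_coe_finset im
      _ = t := h6
      _ ≤ a * a * t := Nat.le_mul_of_pos_left t (Nat.mul_pos ha ha)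
      _ ≤ N.relIndex U := hle
  · push Not at hex
    have : {θ | θ ∈ IrrS N ∧ Over χ θ} = ∅ := by
      ext θ
      simp only [Set.mem_ofPred_eq, Set.mem_empty_iff_false, iff_false, not_and]
      exact hex θ
    rw [this]
    exact ⟨Set.finite_empty, by simp⟩

/-- **E7.** -/
theorem e7 (h1 : T_S1) (h2 : T_S2) (h3 : T_S3) (h4 : T_S4) (h7 : T_S7) (hE : T_E2) : T_E7 := by
  intro Γ _ _ N U hNU hN χ hχ θ hθ hO hst
  -- `stab U θ = N`
  have hstab : stab U θ = N := by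
    apply le_antisymm
    · intro u hu
      exact hst u hu.1 hu.2
    · intro n hn
      exact ⟨hNU hn, cj_eq_self h1 hθ hn⟩
  have key : ∀ χ' ∈ IrrS U, Over χ' θ → (∀ x, x ∉ N → χ' x = 0) ∧
      χ' 1 = (N.relIndex U : ℂ) * θ 1 ∧
      ∀ x ∈ N, (Nat.card U : ℂ) * χ' x = (N.relIndex U : ℂ) * ind U θ x := by
    intro χ' hχ' hO'
    obtain ⟨a, t, ha, ht, hcard, hform, hdeg, hnorm⟩ :=
      clifford h1 h2 h3 h4 h7 hE hNU hN hχ' hθ hO'
    rw [hstab] at hcard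
    have h5 : t = N.relIndex U := by
      apply Nat.eq_of_mul_eq_mul_right (Nat.card_pos (α := N))
      rw [hcard, ← card_mul_relIndex hNU, mul_comm]
    rw [ip_self] at hnorm
    have h6 : (∑ x, ‖rs N χ' x‖ ^ 2 : ℝ) = a * a * t * (Nat.card N : ℝ) := by
      exact_mod_cast hnorm
    have h8 := norm_data h1 h2 (N := N) hχ'
    have h9 : a * a * t * Nat.card N ≤ Nat.card U := by
      have := h8.1
      rw [h6] at this
      exact_mod_cast this
    rw [← hcard] at h9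
    have h10 : a * a * t ≤ t := Nat.le_of_mul_le_mul_right h9 Nat.card_pos
    have h11 : a * a ≤ 1 := by
      by_contra hcon
      push Not at hcon
      have : 2 * t ≤ a * a * t := Nat.mul_le_mul_right t hcon
      omega
    have h12 : a = 1 := by nlinarith
    subst h12
    refine ⟨h8.2 ?_, ?_, ?_⟩
    · rw [h6]
      have : t * Nat.card N = Nat.card U := hcard
      rw [← this]; push_cast; ring
    · rw [hdeg, h5]; push_cast; ring
    · intro x hx
      rw [hform x hx, h5]; push_cast; ring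
  obtain ⟨k1, k2, k3⟩ := key χ hχ hO
  refine ⟨k1, k2, fun χ' hχ' hO' => ?_⟩
  obtain ⟨k1', k2', k3'⟩ := key χ' hχ' hO'
  funext x
  by_cases hx : x ∈ N
  · exact mul_left_cancel₀ (natCard_ne_zero U) ((k3' x hx).trans (k3 x hx).symm)
  · rw [k1 x hx, k1' x hx]

/-- **E9.** -/
theorem e9 : T_E9 := by
  intro Q _ _
  have h := CommGroup.monoidHom_mulEquiv_of_hasEnoughRootsOfUnity Q ℂ
  obtain ⟨e⟩ := h
  refine ⟨Finite.of_equiv Q e.toEquiv.symm, (Nat.card_congr e.toEquiv).le⟩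

/-- orthogonality for the linear characters of `Q` -/
theorem sum_mu {Q : Type} [CommGroup Q] [Finite Q] [Fintype (Q →* ℂˣ)] {q : Q} (hq : q ≠ 1) :
    ∑ μ : Q →* ℂˣ, (μ q : ℂ) = 0 := by
  obtain ⟨μ₀, hμ₀⟩ := CommGroup.exists_apply_ne_one_of_hasEnoughRootsOfUnity Q ℂ hq
  have h1 : ∑ μ : Q →* ℂˣ, (μ q : ℂ) = (μ₀ q : ℂ) * ∑ μ : Q →* ℂˣ, (μ q : ℂ) := by
    rw [Finset.mul_sum]
    refine (Fintype.sum_equiv (Equiv.mulLeft μ₀) _ _ fun μ => ?_).symm
    simp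
  have h2 : (1 - (μ₀ q : ℂ)) * ∑ μ : Q →* ℂˣ, (μ q : ℂ) = 0 := by
    rw [sub_mul, one_mul, ← h1, sub_self]
  rcases mul_eq_zero.mp h2 with h3 | h3
  · exfalso
    apply hμ₀
    ext
    push_cast
    exact (sub_eq_zero.mp h3).symm
  · exact h3

/-- **E8.** -/
theorem e8 (h1 : T_S1) (h2 : T_S2) (h3 : T_S3) (h4 : T_S4) (h7 : T_S7) (h8 : T_S8)
    (hE : T_E2) : T_E8 := by
  intro Γ _ _ Q _ _ s U ψ hψ ψ' hψ' θ hθ hO hO'
  by_contra hcon
  push Not at hcon
  have hfin : Finite (Q →* ℂˣ) := (e9 Q).1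
  let _ : Fintype (Q →* ℂˣ) := Fintype.ofFinite _
  set K : Subgroup Γ := U ⊓ s.ker with hK
  have hKU : K ≤ U := inf_le_left
  have hKn : ∀ u ∈ U, ∀ g ∈ K, u * g * u⁻¹ ∈ K := by
    intro u hu g hg
    refine ⟨U.mul_mem (U.mul_mem hu hg.1) (U.inv_mem hu), ?_⟩
    show s (u * g * u⁻¹) = 1
    have : s g = 1 := hg.2
    rw [map_mul, map_mul, this, mul_one, ← map_mul, mul_inv_cancel, map_one]
  -- the sum over `K` of `ψ conj ψ'` vanishes
  have hsum : ip (rs K ψ) ψ' = 0 := by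
    have h5 : ∀ μ : Q →* ℂˣ, ip (tw s μ ψ) ψ' = 0 := by
      intro μ
      have := h2 Γ U _ _ (h8 Γ Q s μ U ψ hψ) hψ'
      rwa [if_neg (fun h => hcon μ h.symm)] at this
    have h6 : ∑ μ : Q →* ℂˣ, ip (tw s μ ψ) ψ' =
        (Fintype.card (Q →* ℂˣ) : ℂ) * ip (rs K ψ) ψ' := by
      unfold ip
      rw [Finset.sum_comm, Finset.mul_sum]
      refine Finset.sum_congr rfl fun x _ => ?_
      have h9 : ∀ μ : Q →* ℂˣ, tw s μ ψ x * conj (ψ' x) = (μ (s x) : ℂ) * (ψ x * conj (ψ' x)) := by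
        intro μ
        simp only [tw]; ring
      rw [Finset.sum_congr rfl (fun μ _ => h9 μ), ← Finset.sum_mul]
      by_cases hs : s x = 1
      · by_cases hxU : x ∈ U
        · have h10 : rs K ψ x = ψ x := if_pos ⟨hxU, hs⟩
          rw [h10, hs]
          simp
        · rw [(h1 Γ U ψ hψ).1 x hxU]
          have h10 : rs K ψ x = 0 := if_neg (fun h => hxU h.1)
          rw [h10]; simp
      · rw [sum_mu hs]
        have h10 : rs K ψ x = 0 := if_neg (fun h => hs h.2)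
        rw [h10]; simp
    rw [Finset.sum_congr rfl (fun μ _ => h5 μ), Finset.sum_const_zero] at h6
    have h10 : (Fintype.card (Q →* ℂˣ) : ℂ) ≠ 0 := by
      exact_mod_cast (Fintype.card_pos (α := (Q →* ℂˣ))).ne'
    exact (mul_eq_zero.mp h6.symm).resolve_left h10
  obtain ⟨a, t, ha, ht, hcard, hform, hdeg, hnorm⟩ :=
    clifford h1 h2 h3 h4 h7 hE hKU hKn hψ hθ hO
  obtain ⟨a', t', ha', ht', hcard', hform', hdeg', hnorm'⟩ :=
    clifford h1 h2 h3 h4 h7 hE hKU hKn hψ' hθ hO'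
  have htt : t = t' :=
    Nat.eq_of_mul_eq_mul_right Nat.card_pos (hcard.trans hcard'.symm)
  subst htt
  have hprop : ∀ x ∈ K, (a' : ℂ) * ψ x = a * ψ' x := by
    intro x hx
    apply mul_left_cancel₀ (natCard_ne_zero U)
    calc (Nat.card U : ℂ) * (a' * ψ x) = a' * ((Nat.card U : ℂ) * ψ x) := by ring
      _ = a * ((Nat.card U : ℂ) * ψ' x) := by rw [hform x hx, hform' x hx]; ring
      _ = (Nat.card U : ℂ) * (a * ψ' x) := by ring
  have h11 : (a' : ℂ) * ip (rs K ψ) (rs K ψ) = a * ip (rs K ψ) ψ' := by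
    unfold ip
    rw [Finset.mul_sum, Finset.mul_sum]
    refine Finset.sum_congr rfl fun x _ => ?_
    by_cases hx : x ∈ K
    · have h12 : rs K ψ x = ψ x := if_pos hx
      rw [h12]
      have h13 := congrArg conj (hprop x hx)
      rw [map_mul, map_mul, Complex.conj_natCast, Complex.conj_natCast] at h13
      calc (a' : ℂ) * (ψ x * conj (ψ x)) = ψ x * (a' * conj (ψ x)) := by ring
        _ = ψ x * (a * conj (ψ' x)) := by rw [h13]
        _ = a * (ψ x * conj (ψ' x)) := by ring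
    · have h12 : rs K ψ x = 0 := if_neg hx
      rw [h12]; simp
  rw [hsum, mul_zero, hnorm] at h11
  have h12 : (a' * (a * a * t * Nat.card K) : ℕ) = 0 := by exact_mod_cast h11
  have h13 : 0 < a' * (a * a * t * Nat.card K) := by
    have : 0 < Nat.card K := Nat.card_pos
    positivity
  omega

end Clifford

end HE

/-- **E1.** -/
theorem e1 (h1 : T_S1) (h3 : T_S3) : T_E1 := HE.e1 h1 h3

/-- **E2.** -/
theorem e2 (h1 : T_S1) (h2 : T_S2) (h3 : T_S3) (h6 : T_S6) (h7 : T_S7) : T_E2 :=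
  HE.e2 h1 h2 h3 h6 h7

/-- **E3.** -/
theorem e3 (h1 : T_S1) (h2 : T_S2) (h3 : T_S3) (h4 : T_S4) (h7 : T_S7) (hE : T_E2) : T_E3 :=
  HE.e3 h1 h2 h3 h4 h7 hE

/-- **E4.** -/
theorem e4 (h1 : T_S1) (h3 : T_S3) : T_E4 := HE.e4 h1 h3

/-- **E5.** -/
theorem e5 (hE : T_E2) (hE3 : T_E3) : T_E5 := HE.e5 hE hE3

/-- **E6.** -/
theorem e6 (h1 : T_S1) (h2 : T_S2) (h3 : T_S3) (h4 : T_S4) (h7 : T_S7) (hE : T_E2) : T_E6 :=
  HE.e6 h1 h2 h3 h4 h7 hE

/-- **E7.** -/
theorem e7 (h1 : T_S1) (h2 : T_S2) (h3 : T_S3) (h4 : T_S4) (h7 : T_S7) (hE : T_E2) : T_E7 :=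
  HE.e7 h1 h2 h3 h4 h7 hE

/-- **E8.** -/
theorem e8 (h1 : T_S1) (h2 : T_S2) (h3 : T_S3) (h4 : T_S4) (h7 : T_S7) (h8 : T_S8)
    (hE : T_E2) : T_E8 :=
  HE.e8 h1 h2 h3 h4 h7 h8 hE

/-- **E9.** -/
theorem e9 : T_E9 := HE.e9

end AMc
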